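import Pool.Agent.PathPartitionEq.Weak

/-!
No partition of `D_n` into two parts whose longest paths have at most `a` and at most `n - a`
vertices, if `1 ≤ a` and `11 * (a + 1) ≤ n`.
-/

set_option autoImplicit false

namespace Pool.Agent.PathPartitionEq.Weak

variable {n : ℕ}

/-- The path through a set of main vertices. -/
def ml (F : Finset (Fin n)) : List (W n) := (F.sort (· ≤ ·)).map Sum.inl

theorem length_ml (F : Finset (Fin n)) : (ml F).length = F.card := by
  simp [ml]

theorem mem_ml (F : Finset (Fin n)) (v : W n) : v ∈ ml F ↔ ∃ i ∈ F, v = Sum.inl i := by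
  simp only [ml, List.mem_map, Finset.mem_sort]
  constructor
  · rintro ⟨i, hi, rfl⟩; exact ⟨i, hi, rfl⟩
  · rintro ⟨i, hi, rfl⟩; exact ⟨i, hi, rfl⟩

theorem isPath_ml (F : Finset (Fin n)) : IsPath (ml F) := by
  constructor
  · rw [ml, List.isChain_map]
    exact (Finset.sortedLT_sort F).isChain
  · rw [ml]
    exact (Finset.sort_nodup F _).map Sum.inl_injective

theorem join (F1 F2 : Finset (Fin n)) (M : List (W n)) (hM : IsPath M) (hne : M ≠ [])
    (h1 : ∀ i ∈ F1, ∀ v ∈ M.head?, Arc n (.inl i) v)
    (h2 : ∀ v ∈ M.getLast?, ∀ k ∈ F2, Arc n v (.inl k))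
    (h3 : ∀ i ∈ F1, ∀ k ∈ F2, i < k) (h4 : ∀ i ∈ F1, Sum.inl i ∉ M)
    (h5 : ∀ k ∈ F2, Sum.inl k ∉ M) : IsPath (ml F1 ++ (M ++ ml F2)) := by
  have hmem : ∀ (F : Finset (Fin n)) (v : W n), v ∈ (ml F).head? ∨ v ∈ (ml F).getLast? →
      ∃ i ∈ F, v = Sum.inl i := by
    intro F v hv
    rw [← mem_ml]
    rcases hv with hv | hv
    · exact List.mem_of_mem_head? hv
    · exact List.mem_of_mem_getLast? hv
  constructor
  · rw [List.isChain_append, List.isChain_append]
    refine ⟨(isPath_ml F1).1, ⟨hM.1, (isPath_ml F2).1, ?_⟩, ?_⟩
    · intro v hv w hw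
      obtain ⟨k, hk, rfl⟩ := hmem F2 w (Or.inl hw)
      exact h2 v hv k hk
    · intro v hv w hw
      obtain ⟨i, hi, rfl⟩ := hmem F1 v (Or.inr hv)
      rw [List.head?_append_of_ne_nil _ hne] at hw
      exact h1 i hi w hw
  · rw [List.nodup_append, List.nodup_append]
    refine ⟨(isPath_ml F1).2, ⟨hM.2, (isPath_ml F2).2, ?_⟩, ?_⟩
    · intro v hv w hw
      rw [mem_ml] at hw
      obtain ⟨k, hk, rfl⟩ := hw
      rintro rfl
      exact h5 k hk hv
    · intro v hv w hw
      rw [mem_ml] at hv
      obtain ⟨i, hi, rfl⟩ := hv
      rw [List.mem_append, mem_ml] at hw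
      rintro rfl
      rcases hw with hw | ⟨k, hk, hik⟩
      · exact h4 i hi hw
      · rw [Sum.inl.injEq] at hik
        subst hik
        exact lt_irrefl i (h3 i hi i hk)

/-- A position where one of the two gadgets blocks the set `A`. -/
theorem gap (A : Finset (Fin n)) (hA : A.Nonempty) (hc : 11 * (A.card + 1) ≤ n) :
    (∃ j ∈ A, 11 ≤ j.val ∧ ∀ i ∈ A, j ≤ i) ∨
      (∃ j ∈ A, j.val + 12 ≤ n ∧ ∀ i ∈ A, i ≤ j ∨ j.val + 12 ≤ i.val) := by
  by_contra hcon
  push Not at hcon
  obtain ⟨h1, h2⟩ := hcon
  have hj0 : (A.min' hA).val < 11 := by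
    by_contra hlt
    obtain ⟨i, hi, h3⟩ := h1 (A.min' hA) (A.min'_mem hA) (by omega)
    exact absurd (A.min'_le i hi) (not_le.2 h3)
  have hcov : ∀ t : ℕ, 11 + t ≤ n → ∃ j ∈ A, j.val < 11 + t ∧ 11 + t ≤ j.val + 11 := by
    intro t
    induction t with
    | zero => intro _; exact ⟨_, A.min'_mem hA, by omega, by omega⟩
    | succ t ih =>
      intro ht
      obtain ⟨j, hj, h3, h4⟩ := ih (by omega)
      by_cases h5 : 11 + (t + 1) ≤ j.val + 11
      · exact ⟨j, hj, by omega, h5⟩
      · obtain ⟨i, hi, h6, h7⟩ := h2 j hj (by omega)
        have h8 : j.val < i.val := h6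
        exact ⟨i, hi, by omega, by omega⟩
  have hsub : Finset.Icc 11 n ⊆ A.biUnion (fun j => Finset.Ioc j.val (j.val + 11)) := by
    intro t ht
    rw [Finset.mem_Icc] at ht
    obtain ⟨j, hj, h3, h4⟩ := hcov (t - 11) (by omega)
    rw [Finset.mem_biUnion]
    exact ⟨j, hj, Finset.mem_Ioc.2 ⟨by omega, by omega⟩⟩
  have h3 := Finset.card_le_card hsub
  have h4 : (A.biUnion (fun j => Finset.Ioc j.val (j.val + 11))).card ≤ A.card * 11 :=
    Finset.card_biUnion_le_card_mul _ _ _ (fun j _ => by simp)
  rw [Nat.card_Icc] at h3
  omega

/-- No partition of `D_n` with parts at most `a` and at most `n - a`. -/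
theorem no_partition (a : ℕ) (ha : 1 ≤ a) (hn : 11 * (a + 1) ≤ n)
    (V1 : Set (W n)) (h1 : ∀ L : List (W n), IsPath L → (∀ v ∈ L, v ∈ V1) → L.length ≤ a)
    (h2 : ∀ L : List (W n), IsPath L → (∀ v ∈ L, v ∉ V1) → L.length ≤ n - a) : False := by
  classical
  set A : Finset (Fin n) := Finset.univ.filter (fun i => Sum.inl i ∈ V1) with hAdef
  have hmemA : ∀ i, i ∈ A ↔ Sum.inl i ∈ V1 := by intro i; simp [hAdef]
  have hA1 : A.card ≤ a := by
    rw [← length_ml]
    refine h1 _ (isPath_ml A) (fun v hv => ?_)
    rw [mem_ml] at hv
    obtain ⟨i, hi, rfl⟩ := hv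
    exact (hmemA i).1 hi
  have hA2 : Aᶜ.card ≤ n - a := by
    rw [← length_ml]
    refine h2 _ (isPath_ml Aᶜ) (fun v hv => ?_)
    rw [mem_ml] at hv
    obtain ⟨i, hi, rfl⟩ := hv
    rw [Finset.mem_compl] at hi
    exact fun h => hi ((hmemA i).2 h)
  rw [Finset.card_compl, Fintype.card_fin] at hA2
  have hA : A.card = a := by omega
  have hne : A.Nonempty := by
    rw [← Finset.card_pos]; omega
  have hinj : ∀ (b : Bool) (j : Fin n),
      Function.Injective (fun y : Fin 12 => (Sum.inr (b, j, y) : W n)) := by
    intro b j y z hyz; simpa using hyz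
  rcases gap A hne (by rw [hA]; exact hn) with ⟨j, hj, h11, hmin⟩ | ⟨j, hj, h12, hgap⟩
  · -- reversed gadget at the least element of `A`
    have hjn := j.isLt
    set high := A.filter (fun i => j < i) with hhigh
    have hcard : A.card = 1 + high.card := by
      have h3 : A = insert j high := by
        ext i
        simp only [hhigh, Finset.mem_insert, Finset.mem_filter]
        constructor
        · intro hi
          rcases (hmin i hi).eq_or_lt with h | h
          · exact Or.inl h.symm
          · exact Or.inr ⟨hi, h⟩
        · rintro (rfl | h)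
          · exact hj
          · exact h.1
      have h4 : j ∉ high := by simp [hhigh]
      calc A.card = (insert j high).card := by rw [← h3]
        _ = 1 + high.card := by rw [Finset.card_insert_of_notMem h4]; omega
    have hhm : ∀ k ∈ high, j < k ∧ Sum.inl k ∈ V1 := by
      intro k hk
      rw [hhigh, Finset.mem_filter] at hk
      exact ⟨hk.2, (hmemA k).1 hk.1⟩
    -- non-triangle vertices are not in `V1`
    have hcore : ∀ x, (Sum.inr (true, j, x) : W n) ∈ V1 → x ∈ Tr := by
      intro x hx
      by_contra hxT
      have hp : IsPath (ml (∅ : Finset (Fin n)) ++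
          (([Sum.inr (true, j, x), Sum.inl j] : List (W n)) ++ ml high)) := by
        refine join _ _ _ ⟨?_, by simp⟩ (by simp) (by simp) ?_ (by simp) (by simp) ?_
        · simp only [List.isChain_cons_cons, List.IsChain.singleton, and_true]
          rw [arc_of_rev]
          exact ⟨h11, Or.inr ⟨hxT, le_rfl⟩⟩
        · intro v hv k hk
          simp only [List.getLast?_cons_cons, List.getLast?_singleton, Option.mem_def,
            Option.some.injEq] at hv
          subst hv
          exact (hhm k hk).1
        · intro k hk hmem
          simp only [List.mem_cons, List.not_mem_nil, or_false, reduceCtorEq, false_or,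
            Sum.inl.injEq] at hmem
          exact absurd (hhm k hk).1 (by rw [hmem]; exact lt_irrefl j)
      have h3 := h1 _ hp (by
        intro v hv
        simp only [List.mem_append, mem_ml, List.mem_cons, List.not_mem_nil, or_false] at hv
        rcases hv with ⟨i, hi, -⟩ | (rfl | rfl) | ⟨k, hk, rfl⟩
        · simp at hi
        · exact hx
        · exact (hmemA j).1 hj
        · exact (hhm k hk).2)
      simp only [List.length_append, length_ml, List.length_cons, List.length_nil,
        Finset.card_empty] at h3
      omega
    have htri : ∀ x, (Sum.inr (true, j, x) : W n) ∈ V1 → ∀ y,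
        (Sum.inr (true, j, y) : W n) ∈ V1 → ¬ G x y := by
      intro x hx y hy hxy
      have hxT := hcore x hx
      have hnexy : y ≠ x := by
        rintro rfl
        have hG : ∀ x : Fin 12, ¬ G x x := by decide
        exact hG _ hxy
      have hp : IsPath (ml (∅ : Finset (Fin n)) ++
          (([Sum.inr (true, j, y), Sum.inr (true, j, x)] : List (W n)) ++ ml high)) := by
        refine join _ _ _ ⟨?_, by simpa using hnexy⟩ (by simp) (by simp) ?_ (by simp) (by simp)
          (by simp)
        · simp only [List.isChain_cons_cons, List.IsChain.singleton, and_true]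
          exact ⟨rfl, hxy⟩
        · intro v hv k hk
          simp only [List.getLast?_cons_cons, List.getLast?_singleton, Option.mem_def,
            Option.some.injEq] at hv
          subst hv
          rw [arc_of_rev]
          exact ⟨h11, Or.inl ⟨hxT, (hhm k hk).1⟩⟩
      have h3 := h1 _ hp (by
        intro v hv
        simp only [List.mem_append, mem_ml, List.mem_cons, List.not_mem_nil, or_false] at hv
        rcases hv with ⟨i, hi, -⟩ | (rfl | rfl) | ⟨k, hk, rfl⟩
        · simp at hi
        · exact hy
        · exact hx
        · exact (hhm k hk).2)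
      simp only [List.length_append, length_ml, List.length_cons, List.length_nil,
        Finset.card_empty] at h3
      omega
    obtain ⟨x0, P, hP, hPl, hx0, hPT⟩ := exists_exitPath {x | (Sum.inr (true, j, x) : W n) ∈ V1}
      (fun x hx => hcore x hx) (fun x hx y hy => htri x hx y hy)
    set j9 : Fin n := ⟨j.val - 9, by omega⟩ with hj9
    set M : List (W n) := (x0 :: P).reverse.map (fun y => Sum.inr (true, j, y)) with hM
    obtain ⟨hPc, hPn, e, he, heE⟩ := hP
    have hMp : IsPath M := by
      constructor
      · rw [hM, List.isChain_map, List.isChain_reverse]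
        exact hPc.imp (fun _ _ h => ⟨rfl, h⟩)
      · exact (List.nodup_reverse.2 hPn).map (hinj true j)
    have hMmain : ∀ i : Fin n, Sum.inl i ∉ M := by
      intro i hi
      rw [hM, List.mem_map] at hi
      obtain ⟨y, -, hy⟩ := hi
      cases hy
    have hp : IsPath (ml (Finset.Iio j9) ++ (M ++ ml (Finset.Ioi j \ A))) := by
      refine join _ _ _ hMp (by simp [hM]) ?_ ?_ ?_ (fun i _ => hMmain i) (fun i _ => hMmain i)
      · intro i hi v hv
        rw [hM, List.head?_map, List.head?_reverse, he] at hv
        simp only [Option.map_some, Option.mem_def, Option.some.injEq] at hv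
        subst hv
        rw [Finset.mem_Iio, Fin.lt_def] at hi
        rw [arc_to_rev]
        simp only [hj9] at hi
        exact ⟨h11, heE, by omega⟩
      · intro v hv k hk
        rw [hM, List.getLast?_map, List.getLast?_reverse] at hv
        simp only [List.head?_cons, Option.map_some, Option.mem_def, Option.some.injEq] at hv
        subst hv
        rw [Finset.mem_sdiff, Finset.mem_Ioi] at hk
        rw [arc_of_rev]
        exact ⟨h11, Or.inl ⟨hx0, hk.1⟩⟩
      · intro i hi k hk
        rw [Finset.mem_Iio, Fin.lt_def] at hi
        rw [Finset.mem_sdiff, Finset.mem_Ioi, Fin.lt_def] at hk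
        rw [Fin.lt_def]
        simp only [hj9] at hi
        omega
    have h3 := h2 _ hp (by
      intro v hv
      simp only [List.mem_append, mem_ml] at hv
      rcases hv with ⟨i, hi, rfl⟩ | hv | ⟨k, hk, rfl⟩
      · intro hiV
        have h4 := hmin i ((hmemA i).2 hiV)
        rw [Finset.mem_Iio, Fin.lt_def] at hi
        rw [Fin.le_def] at h4
        simp only [hj9] at hi
        omega
      · rw [hM, List.mem_map] at hv
        obtain ⟨y, hy, rfl⟩ := hv
        exact hPT y (List.mem_reverse.1 hy)
      · intro hkV
        rw [Finset.mem_sdiff] at hk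
        exact hk.2 ((hmemA k).2 hkV))
    have h4 := Finset.card_sdiff_add_card_inter (Finset.Ioi j) A
    have h5 : (Finset.Ioi j ∩ A).card = high.card := by
      congr 1
      ext i
      simp only [hhigh, Finset.mem_inter, Finset.mem_Ioi, Finset.mem_filter]
      tauto
    rw [Fin.card_Ioi] at h4
    simp only [List.length_append, length_ml, hM, List.length_map, List.length_reverse,
      List.length_cons, hPl, Fin.card_Iio, hj9] at h3
    omega
  · -- forward gadget
    have hjn := j.isLt
    set low := A.filter (fun i => i < j) with hlow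
    set high := A.filter (fun i => j < i) with hhigh
    have hcard : A.card = low.card + 1 + high.card := by
      have h3 : A = insert j (low ∪ high) := by
        ext i
        simp only [hhigh, hlow, Finset.mem_insert, Finset.mem_union, Finset.mem_filter]
        constructor
        · intro hi
          rcases lt_trichotomy i j with h | h | h
          · exact Or.inr (Or.inl ⟨hi, h⟩)
          · exact Or.inl h
          · exact Or.inr (Or.inr ⟨hi, h⟩)
        · rintro (rfl | h | h)
          · exact hj
          · exact h.1
          · exact h.1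
      have h4 : j ∉ low ∪ high := by simp [hhigh, hlow]
      have h5 : Disjoint low high := by
        rw [Finset.disjoint_left]
        intro i hi1 hi2
        simp only [hhigh, hlow, Finset.mem_filter] at hi1 hi2
        exact absurd hi1.2 (not_lt.2 hi2.2.le)
      calc A.card = (insert j (low ∪ high)).card := by rw [← h3]
        _ = low.card + 1 + high.card := by
          rw [Finset.card_insert_of_notMem h4, Finset.card_union_of_disjoint h5]; omega
    have hhm : ∀ k ∈ high, j.val + 12 ≤ k.val ∧ Sum.inl k ∈ V1 := by
      intro k hk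
      rw [hhigh, Finset.mem_filter] at hk
      refine ⟨?_, (hmemA k).1 hk.1⟩
      rcases hgap k hk.1 with h | h
      · exact absurd hk.2 (not_lt.2 h)
      · exact h
    have hlm : ∀ i ∈ low, i < j ∧ Sum.inl i ∈ V1 := by
      intro k hk
      rw [hlow, Finset.mem_filter] at hk
      exact ⟨hk.2, (hmemA k).1 hk.1⟩
    have hlh : ∀ i ∈ low, ∀ k ∈ high, i < k := by
      intro i hi k hk
      have h3 := (hlm i hi).1
      have h4 := (hhm k hk).1
      rw [Fin.lt_def] at h3 ⊢
      omega
    have hcore : ∀ x, (Sum.inr (false, j, x) : W n) ∈ V1 → x ∈ Tr := by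
      intro x hx
      by_contra hxT
      have hp : IsPath (ml low ++
          (([Sum.inl j, Sum.inr (false, j, x)] : List (W n)) ++ ml high)) := by
        refine join _ _ _ ⟨?_, by simp⟩ (by simp) ?_ ?_ hlh ?_ ?_
        · simp only [List.isChain_cons_cons, List.IsChain.singleton, and_true]
          rw [arc_to_fwd]
          exact ⟨h12, Or.inr ⟨hxT, le_rfl⟩⟩
        · intro i hi v hv
          simp only [List.head?_cons, Option.mem_def, Option.some.injEq] at hv
          subst hv
          exact (hlm i hi).1
        · intro v hv k hk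
          simp only [List.getLast?_cons_cons, List.getLast?_singleton, Option.mem_def,
            Option.some.injEq] at hv
          subst hv
          rw [arc_of_fwd]
          exact ⟨h12, Or.inr (hhm k hk).1⟩
        · intro i hi hmem
          simp only [List.mem_cons, List.not_mem_nil, or_false, reduceCtorEq,
            Sum.inl.injEq] at hmem
          exact absurd (hlm i hi).1 (by rw [hmem]; exact lt_irrefl j)
        · intro k hk hmem
          simp only [List.mem_cons, List.not_mem_nil, or_false, reduceCtorEq,
            Sum.inl.injEq] at hmem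
          have := (hhm k hk).1
          rw [hmem] at this
          omega
      have h3 := h1 _ hp (by
        intro v hv
        simp only [List.mem_append, mem_ml, List.mem_cons, List.not_mem_nil, or_false] at hv
        rcases hv with ⟨i, hi, rfl⟩ | (rfl | rfl) | ⟨k, hk, rfl⟩
        · exact (hlm i hi).2
        · exact (hmemA j).1 hj
        · exact hx
        · exact (hhm k hk).2)
      simp only [List.length_append, length_ml, List.length_cons, List.length_nil] at h3
      omega
    have htri : ∀ x, (Sum.inr (false, j, x) : W n) ∈ V1 → ∀ y,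
        (Sum.inr (false, j, y) : W n) ∈ V1 → ¬ G x y := by
      intro x hx y hy hxy
      have hxT := hcore x hx
      have hnexy : x ≠ y := by
        rintro rfl
        have hG : ∀ x : Fin 12, ¬ G x x := by decide
        exact hG _ hxy
      have hp : IsPath (ml low ++
          (([Sum.inr (false, j, x), Sum.inr (false, j, y)] : List (W n)) ++ ml high)) := by
        refine join _ _ _ ⟨?_, by simpa using hnexy⟩ (by simp) ?_ ?_ hlh (by simp) (by simp)
        · simp only [List.isChain_cons_cons, List.IsChain.singleton, and_true]
          exact ⟨rfl, hxy⟩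
        · intro i hi v hv
          simp only [List.head?_cons, Option.mem_def, Option.some.injEq] at hv
          subst hv
          rw [arc_to_fwd]
          exact ⟨h12, Or.inl ⟨hxT, (hlm i hi).1⟩⟩
        · intro v hv k hk
          simp only [List.getLast?_cons_cons, List.getLast?_singleton, Option.mem_def,
            Option.some.injEq] at hv
          subst hv
          rw [arc_of_fwd]
          exact ⟨h12, Or.inr (hhm k hk).1⟩
      have h3 := h1 _ hp (by
        intro v hv
        simp only [List.mem_append, mem_ml, List.mem_cons, List.not_mem_nil, or_false] at hv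
        rcases hv with ⟨i, hi, rfl⟩ | (rfl | rfl) | ⟨k, hk, rfl⟩
        · exact (hlm i hi).2
        · exact hx
        · exact hy
        · exact (hhm k hk).2)
      simp only [List.length_append, length_ml, List.length_cons, List.length_nil] at h3
      omega
    obtain ⟨x0, P, hP, hPl, hx0, hPT⟩ := exists_exitPath {x | (Sum.inr (false, j, x) : W n) ∈ V1}
      (fun x hx => hcore x hx) (fun x hx y hy => htri x hx y hy)
    set j10 : Fin n := ⟨j.val + 10, by omega⟩ with hj10
    set M : List (W n) := (x0 :: P).map (fun y => Sum.inr (false, j, y)) with hM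
    obtain ⟨hPc, hPn, e, he, heE⟩ := hP
    have hMp : IsPath M := by
      constructor
      · rw [hM, List.isChain_map]
        exact hPc.imp (fun _ _ h => ⟨rfl, h⟩)
      · exact hPn.map (hinj false j)
    have hMmain : ∀ i : Fin n, Sum.inl i ∉ M := by
      intro i hi
      rw [hM, List.mem_map] at hi
      obtain ⟨y, -, hy⟩ := hi
      cases hy
    have hp : IsPath (ml (Finset.Iio j \ A) ++ (M ++ ml (Finset.Ici j10 \ A))) := by
      refine join _ _ _ hMp (by simp [hM]) ?_ ?_ ?_ (fun i _ => hMmain i) (fun i _ => hMmain i)
      · intro i hi v hv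
        simp only [hM, List.map_cons, List.head?_cons, Option.mem_def, Option.some.injEq] at hv
        subst hv
        rw [Finset.mem_sdiff, Finset.mem_Iio] at hi
        rw [arc_to_fwd]
        exact ⟨h12, Or.inl ⟨hx0, hi.1⟩⟩
      · intro v hv k hk
        rw [hM, List.getLast?_map, he] at hv
        simp only [Option.map_some, Option.mem_def, Option.some.injEq] at hv
        subst hv
        rw [Finset.mem_sdiff, Finset.mem_Ici, Fin.le_def] at hk
        rw [arc_of_fwd]
        exact ⟨h12, Or.inl ⟨heE, hk.1⟩⟩
      · intro i hi k hk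
        rw [Finset.mem_sdiff, Finset.mem_Iio, Fin.lt_def] at hi
        rw [Finset.mem_sdiff, Finset.mem_Ici, Fin.le_def] at hk
        rw [Fin.lt_def]
        simp only [hj10] at hk
        omega
    have h3 := h2 _ hp (by
      intro v hv
      simp only [List.mem_append, mem_ml] at hv
      rcases hv with ⟨i, hi, rfl⟩ | hv | ⟨k, hk, rfl⟩
      · intro hiV
        rw [Finset.mem_sdiff] at hi
        exact hi.2 ((hmemA i).2 hiV)
      · rw [hM, List.mem_map] at hv
        obtain ⟨y, hy, rfl⟩ := hv
        exact hPT y hy
      · intro hkV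
        rw [Finset.mem_sdiff] at hk
        exact hk.2 ((hmemA k).2 hkV))
    have h4 := Finset.card_sdiff_add_card_inter (Finset.Iio j) A
    have h5 : (Finset.Iio j ∩ A).card = low.card := by
      congr 1
      ext i
      simp only [hlow, Finset.mem_inter, Finset.mem_Iio, Finset.mem_filter]
      tauto
    have h6 := Finset.card_sdiff_add_card_inter (Finset.Ici j10) A
    have h7 : (Finset.Ici j10 ∩ A).card ≤ high.card := by
      apply Finset.card_le_card
      intro i hi
      rw [Finset.mem_inter, Finset.mem_Ici, Fin.le_def] at hi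
      rw [hhigh, Finset.mem_filter, Fin.lt_def]
      simp only [hj10] at hi
      exact ⟨hi.2, by omega⟩
    rw [Fin.card_Iio] at h4
    rw [Fin.card_Ici] at h6
    simp only [List.length_append, length_ml, hM, List.length_map,
      List.length_cons, hPl] at h3
    have h8 : j10.val = j.val + 10 := rfl
    rw [h8] at h6
    omega

/-- From functions to lists. -/
theorem isPath_ofFn {m : ℕ} (f : Fin m → W n) (hf : Function.Injective f)
    (ha : ∀ i j : Fin m, j.val = i.val + 1 → Arc n (f i) (f j)) : IsPath (List.ofFn f) := by
  refine ⟨?_, List.nodup_ofFn.2 hf⟩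
  rw [List.isChain_ofFn]
  intro i hi
  exact ha _ _ rfl

/-- From lists to functions. -/
theorem exists_fun {m : ℕ} (L : List (W n)) (hL : IsPath L) (hl : L.length = m) :
    ∃ f : Fin m → W n, Function.Injective f ∧ (∀ i, f i ∈ L) ∧
      ∀ i j : Fin m, j.val = i.val + 1 → Arc n (f i) (f j) := by
  subst hl
  refine ⟨fun i => L[i.val], fun i j h => ?_, fun i => List.getElem_mem _, fun i j h => ?_⟩
  · exact Fin.ext ((hL.2.getElem_inj_iff).1 h)
  · have h1 := List.isChain_iff_getElem.1 hL.1 i.val (by omega)
    have h2 : L[j.val] = L[i.val + 1]'(by omega) := by simp only [h]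
    show Arc n (L[i.val]) (L[j.val])
    rw [h2]
    exact h1

/-- The main path. -/
theorem exists_main : ∃ L : List (W n), IsPath L ∧ L.length = n :=
  ⟨ml Finset.univ, isPath_ml _, by rw [length_ml]; simp⟩

end Pool.Agent.PathPartitionEq.Weak
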