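import Mathlib

/-!
A rooted digraph `G` on the vertices `0, ..., 23` with exits `4, 12, 20`. An exit path is a
directed path of `G` whose last vertex is an exit. The longest exit path has 23 vertices, and for
every stable set `T` the longest exit path avoiding `T` does not have exactly 22 vertices: every
exit path with at least 22 vertices contains all vertices but `0, 8, 16`, these three vertices
form a directed triangle, and each of them is avoided by an exit path on 23 vertices.
-/

set_option autoImplicit false

namespace Pool.Agent.PathPartitionEq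

/-- Predecessors of each vertex of the gadget. -/
def predTable : List (List ℕ) :=
  [[1, 16], [15, 16], [1, 23], [2], [3], [12, 15], [5], [6], [0, 9], [0, 23], [7, 9], [10],
   [11], [20, 23], [13], [14], [8, 17], [7, 8], [15, 17], [18], [19], [4, 7], [21], [22]]

/-- Predecessors of the vertex `v`. -/
def preds (v : ℕ) : List ℕ := predTable.getD v []

/-- The vertices from which an exit path may leave. -/
def exits : List ℕ := [4, 12, 20]

/-- All vertices but `0, 8, 16`. -/
def core : List ℕ :=
  [1, 2, 3, 4, 5, 6, 7, 9, 10, 11, 12, 13, 14, 15, 17, 18, 19, 20, 21, 22, 23]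

/-- At most 23 vertices, and all core vertices if there are at least 22 vertices. -/
def good (p : List ℕ) : Bool :=
  decide (p.length ≤ 23) && (decide (p.length ≤ 21) || core.all (fun c => p.contains c))

/-- Backward depth first search: all backward extensions of the path `p` are good. -/
def dfs : ℕ → List ℕ → Bool
  | 0, _ => false
  | n + 1, p => good p &&
      (preds (p.headD 24)).all (fun u => p.contains u || dfs n (u :: p))

theorem dfs_sound (n : ℕ) : ∀ (p : List ℕ), dfs n p = true → p ≠ [] → ∀ q : List ℕ,
    List.IsChain (fun x y => x ∈ preds y) (q ++ p) → (q ++ p).Nodup → good (q ++ p) = true := by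
  induction n with
  | zero => intro p h; simp [dfs] at h
  | succ n ih =>
    intro p h hp q hc hn
    rw [dfs, Bool.and_eq_true] at h
    obtain ⟨h1, h2⟩ := h
    rcases List.eq_nil_or_concat q with rfl | ⟨q', u, rfl⟩
    · simpa using h1
    · obtain ⟨x, p', rfl⟩ := List.exists_cons_of_ne_nil hp
      rw [List.concat_eq_append, List.append_assoc, List.singleton_append] at hc hn ⊢
      have hu : u ∈ preds x := by
        have h3 := (List.isChain_append.1 hc).2.1
        rw [List.isChain_cons_cons] at h3
        exact h3.1
      have hnu : u ∉ x :: p' := by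
        have h3 := (List.nodup_append.1 hn).2.1
        rw [List.nodup_cons] at h3
        exact h3.1
      have h4 := List.all_eq_true.1 h2 u (by simpa using hu)
      rw [Bool.or_eq_true] at h4
      rcases h4 with h4 | h4
      · exact absurd (by simpa using h4) hnu
      · exact ih (u :: x :: p') h4 (by simp) q' hc hn

theorem dfs_4 : dfs 25 [4] = true := by decide +kernel
theorem dfs_12 : dfs 25 [12] = true := by decide +kernel
theorem dfs_20 : dfs 25 [20] = true := by decide +kernel

theorem good_of_exit (p : List ℕ) (hc : List.IsChain (fun x y => x ∈ preds y) p) (hn : p.Nodup)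
    (e : ℕ) (he : p.getLast? = some e) (hx : e ∈ exits) : good p = true := by
  obtain ⟨q, rfl⟩ := List.getLast?_eq_some_iff.1 he
  have h : dfs 25 [e] = true := by
    simp only [exits, List.mem_cons, List.not_mem_nil, or_false] at hx
    rcases hx with rfl | rfl | rfl
    · exact dfs_4
    · exact dfs_12
    · exact dfs_20
  exact dfs_sound 25 [e] h (by simp) q hc hn

/-- Arcs of the gadget. -/
def A (x y : Fin 24) : Prop := x.val ∈ preds y.val

instance : DecidableRel A := fun x y => by unfold A; infer_instance

/-- `P` is an exit path of the gadget. -/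
def ExitPath (P : List (Fin 24)) : Prop :=
  P.IsChain A ∧ P.Nodup ∧ ∃ e, P.getLast? = some e ∧ e.val ∈ exits

theorem ExitPath.good {P : List (Fin 24)} (h : ExitPath P) :
    good (P.map Fin.val) = true := by
  obtain ⟨hc, hn, e, he, hx⟩ := h
  refine good_of_exit _ ?_ (hn.map Fin.val_injective) e.val ?_ hx
  · rw [List.isChain_map]; exact hc
  · rw [List.getLast?_map, he]; rfl

theorem ExitPath.length_le {P : List (Fin 24)} (h : ExitPath P) : P.length ≤ 23 := by
  have := h.good
  rw [Pool.Agent.PathPartitionEq.good, Bool.and_eq_true] at this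
  simpa using this.1

theorem ExitPath.core_mem {P : List (Fin 24)} (h : ExitPath P) (h22 : 22 ≤ P.length)
    (x : Fin 24) (hx : x ∉ P) : x = 0 ∨ x = 8 ∨ x = 16 := by
  have h1 := h.good
  rw [Pool.Agent.PathPartitionEq.good, Bool.and_eq_true, Bool.or_eq_true] at h1
  rcases h1.2 with h2 | h2
  · simp at h2; omega
  · rw [List.all_eq_true] at h2
    by_contra hne
    have hall : ∀ y : Fin 24, ¬(y = 0 ∨ y = 8 ∨ y = 16) → y.val ∈ core := by decide
    have h3 := h2 x.val (hall x hne)
    apply hx
    simpa [Fin.val_inj] using h3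

/-- Exit path avoiding `8`. -/
def P8 : List (Fin 24) :=
  [0, 9, 10, 11, 12, 5, 6, 7, 17, 16, 1, 2, 3, 4, 21, 22, 23, 13, 14, 15, 18, 19, 20]
/-- Exit path avoiding `16`. -/
def P16 : List (Fin 24) :=
  [8, 17, 18, 19, 20, 13, 14, 15, 1, 0, 9, 10, 11, 12, 5, 6, 7, 21, 22, 23, 2, 3, 4]
/-- Exit path avoiding `0`. -/
def P0 : List (Fin 24) :=
  [16, 1, 2, 3, 4, 21, 22, 23, 9, 8, 17, 18, 19, 20, 13, 14, 15, 5, 6, 7, 10, 11, 12]

theorem exitPath_P8 : ExitPath P8 := ⟨by decide, by decide, 20, rfl, by decide⟩
theorem exitPath_P16 : ExitPath P16 := ⟨by decide, by decide, 4, rfl, by decide⟩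
theorem exitPath_P0 : ExitPath P0 := ⟨by decide, by decide, 12, rfl, by decide⟩

/-- If a stable set is avoided by an exit path on 22 vertices, it is avoided by one on 23. -/
theorem exists_23 (T : Set (Fin 24)) (hT : ∀ x ∈ T, ∀ y ∈ T, ¬ A x y) (P : List (Fin 24))
    (hP : ExitPath P) (hl : P.length = 22) (hPT : ∀ x ∈ P, x ∉ T) :
    ∃ P' : List (Fin 24), ExitPath P' ∧ P'.length = 23 ∧ ∀ x ∈ P', x ∉ T := by
  have hsub : ∀ x ∈ T, x = 0 ∨ x = 8 ∨ x = 16 := fun x hx =>
    hP.core_mem hl.ge x (fun h => hPT x h hx)
  have h08 : A 0 8 := by decide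
  have h816 : A 8 16 := by decide
  have h160 : A 16 0 := by decide
  by_cases h8 : (8 : Fin 24) ∈ T
  · have hT8 : ∀ x ∈ T, x = 8 := by
      intro x hx
      rcases hsub x hx with rfl | rfl | rfl
      · exact absurd h08 (hT _ hx _ h8)
      · rfl
      · exact absurd h816 (hT _ h8 _ hx)
    refine ⟨P8, exitPath_P8, rfl, fun x hx hxT => ?_⟩
    rw [hT8 x hxT] at hx
    revert hx; decide
  · by_cases h16 : (16 : Fin 24) ∈ T
    · have hT16 : ∀ x ∈ T, x = 16 := by
        intro x hx
        rcases hsub x hx with rfl | rfl | rfl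
        · exact absurd h160 (hT _ h16 _ hx)
        · exact absurd hx h8
        · rfl
      refine ⟨P16, exitPath_P16, rfl, fun x hx hxT => ?_⟩
      rw [hT16 x hxT] at hx
      revert hx; decide
    · refine ⟨P0, exitPath_P0, rfl, fun x hx hxT => ?_⟩
      rcases hsub x hxT with rfl | rfl | rfl
      · revert hx; decide
      · exact h8 hxT
      · exact h16 hxT

end Pool.Agent.PathPartitionEq
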