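import Pool.Agent.PathPartitionEq.Gadget

/-!
The digraph `D` on 48 vertices: the gadget, its reverse, and all arcs from the exits of the gadget
to the exits of its reverse. Its longest directed path has 46 vertices, and for no stable set `T`
the longest directed path avoiding `T` has exactly 45 vertices.
-/

set_option autoImplicit false

namespace Pool.Agent.PathPartitionEq

/-- Vertices of the counterexample. -/
abbrev W : Type := Bool × Fin 24

/-- Arcs of the counterexample. -/
def Arc : W → W → Prop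
  | (false, x), (false, y) => A x y
  | (true, x), (true, y) => A y x
  | (false, x), (true, y) => x.val ∈ exits ∧ y.val ∈ exits
  | (true, _), (false, _) => False

/-- The counterexample. -/
def D : Digraph W := ⟨Arc⟩

/-- A directed path, as a list. -/
def IsPath (L : List W) : Prop := L.IsChain Arc ∧ L.Nodup

theorem decomp (L : List W) (hc : L.IsChain Arc) :
    ∃ P Q : List (Fin 24), L = P.map (Prod.mk false) ++ Q.map (Prod.mk true) := by
  induction L with
  | nil => exact ⟨[], [], rfl⟩
  | cons v L ih =>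
    obtain ⟨P, Q, rfl⟩ := ih (List.IsChain.tail hc)
    obtain ⟨b, x⟩ := v
    cases b with
    | false => exact ⟨x :: P, Q, rfl⟩
    | true =>
      cases P with
      | nil => exact ⟨[], x :: Q, rfl⟩
      | cons y P =>
        simp only [List.map_cons, List.cons_append, List.isChain_cons_cons] at hc
        exact absurd hc.1 (by simp [Arc])

theorem isPath_iff (P Q : List (Fin 24)) :
    IsPath (P.map (Prod.mk false) ++ Q.map (Prod.mk true)) ↔
      (P.IsChain A ∧ P.Nodup) ∧ (Q.reverse.IsChain A ∧ Q.Nodup) ∧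
      ∀ x ∈ P.getLast?, ∀ y ∈ Q.head?, x.val ∈ exits ∧ y.val ∈ exits := by
  have hinj : ∀ b : Bool, Function.Injective (Prod.mk b : Fin 24 → W) := by
    intro b x y h; simpa using h
  unfold IsPath
  rw [List.isChain_append, List.nodup_append, List.isChain_map, List.isChain_map,
    List.nodup_map_iff (hinj false), List.nodup_map_iff (hinj true), List.isChain_reverse,
    List.getLast?_map, List.head?_map]
  constructor
  · rintro ⟨⟨h1, h2, h3⟩, h4, h5, -⟩
    refine ⟨⟨h1, h4⟩, ⟨h2, h5⟩, fun x hx y hy => ?_⟩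
    exact h3 (false, x) (by simpa using hx) (true, y) (by simpa using hy)
  · rintro ⟨⟨h1, h4⟩, ⟨h2, h5⟩, h3⟩
    refine ⟨⟨h1, h2, fun a ha b hb => ?_⟩, h4, h5, ?_⟩
    · simp only [Option.mem_def, Option.map_eq_some_iff] at ha hb
      obtain ⟨x, hx, rfl⟩ := ha
      obtain ⟨y, hy, rfl⟩ := hb
      exact h3 x hx y hy
    · intro a ha b hb
      simp only [List.mem_map] at ha hb
      obtain ⟨x, -, rfl⟩ := ha
      obtain ⟨y, -, rfl⟩ := hb
      simp

/-- If both parts of a path are nonempty, they are exit paths. -/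
theorem exitPath_parts (P Q : List (Fin 24)) (hP : P ≠ []) (hQ : Q ≠ [])
    (h : IsPath (P.map (Prod.mk false) ++ Q.map (Prod.mk true))) :
    ExitPath P ∧ ExitPath Q.reverse := by
  rw [isPath_iff] at h
  obtain ⟨⟨h1, h4⟩, ⟨h2, h5⟩, h3⟩ := h
  have hx : P.getLast? = some (P.getLast hP) := List.getLast?_eq_getLast_of_ne_nil hP
  have hy : Q.head? = some (Q.head hQ) := List.head?_eq_some_head hQ
  have h6 := h3 _ hx _ hy
  refine ⟨⟨h1, h4, _, hx, h6.1⟩, ⟨h2, List.nodup_reverse.2 h5, _, ?_, h6.2⟩⟩
  rw [List.getLast?_reverse, hy]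

theorem isPath_join (P Q : List (Fin 24)) (hP : ExitPath P) (hQ : ExitPath Q.reverse) :
    IsPath (P.map (Prod.mk false) ++ Q.map (Prod.mk true)) := by
  obtain ⟨h1, h2, e, h3, h4⟩ := hP
  obtain ⟨h5, h6, e', h7, h8⟩ := hQ
  rw [isPath_iff]
  refine ⟨⟨h1, h2⟩, ⟨h5, List.nodup_reverse.1 h6⟩, fun x hx y hy => ?_⟩
  rw [List.getLast?_reverse] at h7
  rw [h3] at hx
  rw [h7] at hy
  simp only [Option.mem_def, Option.some.injEq] at hx hy
  subst hx; subst hy
  exact ⟨h4, h8⟩

/-- Every path has at most 46 vertices, and if it has 45, its parts have 22 and 23 vertices. -/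
theorem length_parts (P Q : List (Fin 24))
    (h : IsPath (P.map (Prod.mk false) ++ Q.map (Prod.mk true))) :
    P.length + Q.length ≤ 46 ∧ (P.length + Q.length = 45 →
      ExitPath P ∧ ExitPath Q.reverse ∧
        (P.length = 22 ∧ Q.length = 23 ∨ P.length = 23 ∧ Q.length = 22)) := by
  have hP24 : P.length ≤ 24 := by
    have := ((isPath_iff P Q).1 h).1.2.length_le_card
    simpa using this
  have hQ24 : Q.length ≤ 24 := by
    have := ((isPath_iff P Q).1 h).2.1.2.length_le_card
    simpa using this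
  by_cases hP : P = []
  · subst hP
    simp only [List.length_nil]
    exact ⟨by omega, fun h => by omega⟩
  by_cases hQ : Q = []
  · subst hQ
    simp only [List.length_nil]
    exact ⟨by omega, fun h => by omega⟩
  obtain ⟨h1, h2⟩ := exitPath_parts P Q hP hQ h
  have h3 := h1.length_le
  have h4 := h2.length_le
  rw [List.length_reverse] at h4
  exact ⟨by omega, fun h => ⟨h1, h2, by omega⟩⟩

theorem isPath_length_le (L : List W) (h : IsPath L) : L.length ≤ 46 := by
  obtain ⟨P, Q, rfl⟩ := decomp L h.1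
  have := (length_parts P Q h).1
  simpa using this

theorem exists_path : ∃ L : List W, IsPath L ∧ L.length = 46 :=
  ⟨_, isPath_join P8 P8.reverse exitPath_P8 (by rw [List.reverse_reverse]; exact exitPath_P8),
    rfl⟩

/-- If a stable set is avoided by a path on 45 vertices, it is avoided by one on 46. -/
theorem exists_46 (T : Set W) (hT : ∀ x ∈ T, ∀ y ∈ T, ¬ Arc x y) (L : List W)
    (hL : IsPath L) (hl : L.length = 45) (hLT : ∀ x ∈ L, x ∉ T) :
    ∃ L' : List W, IsPath L' ∧ L'.length = 46 ∧ ∀ x ∈ L', x ∉ T := by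
  obtain ⟨P, Q, rfl⟩ := decomp L hL.1
  obtain ⟨h1, h2, h3⟩ := (length_parts P Q hL).2 (by simpa using hl)
  have hPT : ∀ x ∈ P, (false, x) ∉ T := fun x hx => hLT _ (by simp [hx])
  have hQT : ∀ x ∈ Q, (true, x) ∉ T := fun x hx => hLT _ (by simp [hx])
  rcases h3 with ⟨h3, h4⟩ | ⟨h3, h4⟩
  · obtain ⟨P', hP', hl', hT'⟩ := exists_23 {x | (false, x) ∈ T}
      (fun x hx y hy h => hT _ hx _ hy h) P h1 h3 hPT
    refine ⟨_, isPath_join P' Q hP' h2, by simp [hl', h4], fun v hv => ?_⟩
    rw [List.mem_append, List.mem_map, List.mem_map] at hv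
    rcases hv with ⟨x, hx, rfl⟩ | ⟨x, hx, rfl⟩
    · exact hT' x hx
    · exact hQT x hx
  · obtain ⟨Q', hQ', hl', hT'⟩ := exists_23 {x | (true, x) ∈ T}
      (fun x hx y hy h => hT _ hy _ hx h) Q.reverse h2 (by simpa using h4)
      (fun x hx => hQT x (by simpa using hx))
    refine ⟨_, isPath_join P Q'.reverse h1 (by rw [List.reverse_reverse]; exact hQ'),
      by simp [hl', h3], fun v hv => ?_⟩
    rw [List.mem_append, List.mem_map, List.mem_map] at hv
    rcases hv with ⟨x, hx, rfl⟩ | ⟨x, hx, rfl⟩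
    · exact hPT x hx
    · exact hT' x (by simpa using hx)

theorem not_arc_self (v : W) : ¬ Arc v v := by
  obtain ⟨b, x⟩ := v
  have h : ∀ x : Fin 24, ¬ A x x := by decide
  cases b <;> exact h x

/-- From functions to lists. -/
theorem isPath_ofFn {m : ℕ} (f : Fin m → W) (hf : Function.Injective f)
    (ha : ∀ i j : Fin m, j.val = i.val + 1 → D.Adj (f i) (f j)) : IsPath (List.ofFn f) := by
  refine ⟨?_, List.nodup_ofFn.2 hf⟩
  rw [List.isChain_ofFn]
  intro i hi
  exact ha _ _ rfl

/-- From lists to functions. -/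
theorem exists_fun {m : ℕ} (L : List W) (hL : IsPath L) (hl : L.length = m) :
    ∃ f : Fin m → W, Function.Injective f ∧ (∀ i, f i ∈ L) ∧
      ∀ i j : Fin m, j.val = i.val + 1 → D.Adj (f i) (f j) := by
  subst hl
  refine ⟨fun i => L[i.val], fun i j h => ?_, fun i => List.getElem_mem _, fun i j h => ?_⟩
  · exact Fin.ext ((hL.2.getElem_inj_iff).1 h)
  · have h1 := List.isChain_iff_getElem.1 hL.1 i.val (by omega)
    have h2 : L[j.val] = L[i.val + 1]'(by omega) := by simp only [h]
    show Arc (L[i.val]) (L[j.val])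
    rw [h2]
    exact h1

/-- If no path inside `V1` has more than one vertex, then `V1` is stable. -/
theorem stable_of_max (V1 : Set W) (hmax : ∀ (m : ℕ) (f : Fin m → W), Function.Injective f →
      (∀ i, f i ∈ V1) → (∀ i j : Fin m, j.val = i.val + 1 → D.Adj (f i) (f j)) → m ≤ 1) :
    ∀ x ∈ V1, ∀ y ∈ V1, ¬ Arc x y := by
  intro x hx y hy hxy
  have hne : x ≠ y := by
    rintro rfl
    exact not_arc_self x hxy
  have hL : IsPath [x, y] := ⟨by simpa using hxy, by simpa using hne⟩
  obtain ⟨f, hf, hm, ha⟩ := exists_fun (m := 2) [x, y] hL rfl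
  have h1 := hmax 2 f hf (fun i => by
    have := hm i
    simp only [List.mem_cons, List.not_mem_nil, or_false] at this
    rcases this with h | h <;> rw [h] <;> assumption) ha
  omega

end Pool.Agent.PathPartitionEq
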