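import Mathlib

/-!
The oriented graph `G` on the twelve vertices `0, ..., 11`, invariant under adding 4, with the
exits `0, 4, 8`. The vertices `3, 7, 11` form a directed triangle. An exit path is a directed path
of `G` whose last vertex is an exit. Directed paths of `G` have at most eleven vertices, exit paths
have at most ten, those with ten vertices start in `3, 7, 11`, and each of `3, 7, 11` is avoided by
an exit path on ten vertices that starts in `3, 7, 11`.
-/

set_option autoImplicit false

namespace Pool.Agent.PathPartitionEq.Weak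

/-- Predecessors of each vertex of the gadget. -/
def predTable : List (List ℕ) :=
  [[1, 2, 4], [10], [3, 4], [6, 7], [5, 6, 8], [2], [7, 8], [10, 11], [0, 9, 10], [6], [0, 11],
   [2, 3]]

/-- Predecessors of the vertex `v`. -/
def preds (v : ℕ) : List ℕ := predTable.getD v []

/-- At most nine vertices, or ten vertices and a start in `3, 7, 11`. -/
def goodExit (p : List ℕ) : Bool :=
  decide (p.length ≤ 9) || (decide (p.length ≤ 10) && [3, 7, 11].contains (p.headD 24))

/-- At most eleven vertices. -/
def goodAny (p : List ℕ) : Bool := decide (p.length ≤ 11)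

/-- Backward depth first search: all backward extensions of the path `p` are good. -/
def dfs (good : List ℕ → Bool) : ℕ → List ℕ → Bool
  | 0, _ => false
  | n + 1, p => good p &&
      (preds (p.headD 24)).all (fun u => p.contains u || dfs good n (u :: p))

theorem dfs_sound (good : List ℕ → Bool) (n : ℕ) : ∀ (p : List ℕ), dfs good n p = true →
    p ≠ [] → ∀ q : List ℕ, List.IsChain (fun x y => x ∈ preds y) (q ++ p) → (q ++ p).Nodup →
    good (q ++ p) = true := by
  induction n with
  | zero => intro p h; simp [dfs] at h
  | succ n ih =>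
    intro p h hp q hc hn
    rw [dfs, Bool.and_eq_true] at h
    obtain ⟨h1, h2⟩ := h
    rcases List.eq_nil_or_concat q with rfl | ⟨q', u, rfl⟩
    · simpa using h1
    · obtain ⟨x, p', rfl⟩ := List.exists_cons_of_ne_nil hp
      rw [List.concat_eq_append, List.append_assoc, List.singleton_append] at hc hn ⊢
      have hu : u ∈ preds x := by
        have h3 := (List.isChain_append.1 hc).2.1
        rw [List.isChain_cons_cons] at h3
        exact h3.1
      have hnu : u ∉ x :: p' := by
        have h3 := (List.nodup_append.1 hn).2.1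
        rw [List.nodup_cons] at h3
        exact h3.1
      have h4 := List.all_eq_true.1 h2 u (by simpa using hu)
      rw [Bool.or_eq_true] at h4
      rcases h4 with h4 | h4
      · exact absurd (by simpa using h4) hnu
      · exact ih (u :: x :: p') h4 (by simp) q' hc hn

theorem dfs_0 : dfs goodExit 13 [0] = true := by decide +kernel
theorem dfs_4 : dfs goodExit 13 [4] = true := by decide +kernel
theorem dfs_8 : dfs goodExit 13 [8] = true := by decide +kernel
theorem dfs_any : ∀ x : Fin 12, dfs goodAny 13 [x.val] = true := by decide +kernel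

/-- The exits. -/
def Ex : Finset (Fin 12) := {0, 4, 8}
/-- The vertices of the triangle. -/
def Tr : Finset (Fin 12) := {3, 7, 11}

theorem good_of_exit (p : List ℕ) (hc : List.IsChain (fun x y => x ∈ preds y) p) (hn : p.Nodup)
    (e : ℕ) (he : p.getLast? = some e) (hx : e = 0 ∨ e = 4 ∨ e = 8) : goodExit p = true := by
  obtain ⟨q, rfl⟩ := List.getLast?_eq_some_iff.1 he
  have h : dfs goodExit 13 [e] = true := by
    rcases hx with rfl | rfl | rfl
    · exact dfs_0
    · exact dfs_4
    · exact dfs_8
  exact dfs_sound _ 13 [e] h (by simp) q hc hn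

/-- Arcs of the gadget. -/
def G (x y : Fin 12) : Prop := x.val ∈ preds y.val

instance : DecidableRel G := fun x y => by unfold G; infer_instance

/-- `P` is an exit path of the gadget. -/
def ExitPath (P : List (Fin 12)) : Prop :=
  P.IsChain G ∧ P.Nodup ∧ ∃ e, P.getLast? = some e ∧ e ∈ Ex

theorem length_le_11 (P : List (Fin 12)) (hc : P.IsChain G) (hn : P.Nodup) :
    P.length ≤ 11 := by
  rcases List.eq_nil_or_concat P with rfl | ⟨Q, e, rfl⟩
  · simp
  · rw [List.concat_eq_append] at hc hn ⊢
    have h1 := dfs_sound goodAny 13 [e.val] (dfs_any e) (by simp) (Q.map Fin.val)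
      (by
        have h2 : List.IsChain (fun x y => x ∈ preds y) ((Q ++ [e]).map Fin.val) := by
          rw [List.isChain_map]; exact hc
        simpa using h2)
      (by
        have h2 := hn.map Fin.val_injective
        simpa using h2)
    simp only [goodAny, List.length_append, List.length_map, List.length_cons, List.length_nil,
      decide_eq_true_eq] at h1
    simp only [List.length_append, List.length_cons, List.length_nil]
    omega

theorem ExitPath.good {P : List (Fin 12)} (h : ExitPath P) :
    goodExit (P.map Fin.val) = true := by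
  obtain ⟨hc, hn, e, he, hx⟩ := h
  refine good_of_exit _ ?_ (hn.map Fin.val_injective) e.val ?_ ?_
  · rw [List.isChain_map]; exact hc
  · rw [List.getLast?_map, he]; rfl
  · have hall : ∀ y : Fin 12, y ∈ Ex → y.val = 0 ∨ y.val = 4 ∨ y.val = 8 := by decide
    exact hall e hx

theorem ExitPath.length_le {P : List (Fin 12)} (h : ExitPath P) : P.length ≤ 10 := by
  have := h.good
  rw [goodExit, Bool.or_eq_true, Bool.and_eq_true] at this
  simp only [decide_eq_true_eq, List.length_map] at this
  omega

theorem ExitPath.head_mem {x : Fin 12} {P : List (Fin 12)} (h : ExitPath (x :: P))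
    (hl : 9 ≤ P.length) : x ∈ Tr := by
  have := h.good
  rw [goodExit, Bool.or_eq_true, Bool.and_eq_true] at this
  simp only [decide_eq_true_eq, List.length_map, List.length_cons, List.map_cons,
    List.headD_cons] at this
  rcases this with h1 | ⟨-, h1⟩
  · omega
  · have hall : ∀ y : Fin 12, [3, 7, 11].contains y.val = true → y ∈ Tr := by decide
    exact hall x h1

/-- Exit path avoiding `11`. -/
def P11 : List (Fin 12) := [3, 2, 5, 4, 0, 10, 7, 6, 9, 8]
/-- Exit path avoiding `3`. -/
def P3 : List (Fin 12) := [7, 6, 9, 8, 4, 2, 11, 10, 1, 0]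
/-- Exit path avoiding `7`. -/
def P7 : List (Fin 12) := [11, 10, 1, 0, 8, 6, 3, 2, 5, 4]

theorem exitPath_P11 : ExitPath P11 := ⟨by decide, by decide, 8, rfl, by decide⟩
theorem exitPath_P3 : ExitPath P3 := ⟨by decide, by decide, 0, rfl, by decide⟩
theorem exitPath_P7 : ExitPath P7 := ⟨by decide, by decide, 4, rfl, by decide⟩

/-- If `T` contains no vertex but `3, 7, 11` and no arc, then it is avoided by an exit path on
ten vertices that starts in `3, 7, 11`. -/
theorem exists_exitPath (T : Set (Fin 12)) (h1 : ∀ x ∈ T, x ∈ Tr)
    (h2 : ∀ x ∈ T, ∀ y ∈ T, ¬ G x y) :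
    ∃ (x : Fin 12) (P : List (Fin 12)), ExitPath (x :: P) ∧ P.length = 9 ∧ x ∈ Tr ∧
      ∀ y ∈ x :: P, y ∉ T := by
  have h311 : G 3 11 := by decide
  have h117 : G 11 7 := by decide
  have h73 : G 7 3 := by decide
  have key : ∀ s : Fin 12, (∀ x ∈ T, x = s) → ∀ (x : Fin 12) (P : List (Fin 12)), s ∉ x :: P →
      ∀ y ∈ x :: P, y ∉ T := by
    intro s hs x P hP y hy hyT
    rw [hs y hyT] at hy
    exact hP hy
  have h3 : ∀ x ∈ T, x = 3 ∨ x = 7 ∨ x = 11 := by
    intro x hx
    have hall : ∀ y : Fin 12, y ∈ Tr → y = 3 ∨ y = 7 ∨ y = 11 := by decide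
    exact hall x (h1 x hx)
  by_cases h11 : (11 : Fin 12) ∈ T
  · have h5 : ∀ x ∈ T, x = 11 := by
      intro x hx
      rcases h3 x hx with rfl | rfl | rfl
      · exact absurd h311 (h2 _ hx _ h11)
      · exact absurd h117 (h2 _ h11 _ hx)
      · rfl
    exact ⟨3, _, exitPath_P11, rfl, by decide, key 11 h5 _ _ (by decide)⟩
  · by_cases h7 : (7 : Fin 12) ∈ T
    · have h5 : ∀ x ∈ T, x = 7 := by
        intro x hx
        rcases h3 x hx with rfl | rfl | rfl
        · exact absurd h73 (h2 _ h7 _ hx)
        · rfl
        · exact absurd hx h11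
      exact ⟨11, _, exitPath_P7, rfl, by decide, key 7 h5 _ _ (by decide)⟩
    · have h5 : ∀ x ∈ T, x = 3 := by
        intro x hx
        rcases h3 x hx with rfl | rfl | rfl
        · rfl
        · exact absurd hx h7
        · exact absurd hx h11
      exact ⟨7, _, exitPath_P3, rfl, by decide, key 3 h5 _ _ (by decide)⟩

end Pool.Agent.PathPartitionEq.Weak
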