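import Pool.Agent.PathPartitionEq.Twelve

/-!
The oriented graph `D_n`. Its main vertices `0, ..., n - 1` form a transitive tournament. For every
main vertex `j` there are a forward copy of the twelve vertex gadget `G` (joined to the main
vertices if `j + 12 ≤ n`) and a copy of the reverse of `G` (joined to the main vertices if
`11 ≤ j`). We show that for `n ≥ 22` the longest directed paths of `D_n` have `n` vertices.
-/

set_option autoImplicit false

namespace Pool.Agent.PathPartitionEq.Weak

/-- Vertices of `D_n`: main vertices, and the vertices of the gadgets; the Boolean is `false` for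
forward gadgets and `true` for reversed gadgets. -/
abbrev W (n : ℕ) : Type := Fin n ⊕ (Bool × Fin n × Fin 12)

/-- Arcs of `D_n`. -/
def Arc (n : ℕ) : W n → W n → Prop
  | .inl i, .inl k => i < k
  | .inl i, .inr (false, j, x) => j.val + 12 ≤ n ∧ ((x ∈ Tr ∧ i < j) ∨ (x ∉ Tr ∧ i ≤ j))
  | .inl i, .inr (true, j, x) => 11 ≤ j.val ∧ x ∈ Ex ∧ i.val + 10 ≤ j.val
  | .inr (false, j, x), .inl k =>
      j.val + 12 ≤ n ∧ ((x ∈ Ex ∧ j.val + 10 ≤ k.val) ∨ j.val + 12 ≤ k.val)
  | .inr (true, j, x), .inl k => 11 ≤ j.val ∧ ((x ∈ Tr ∧ j < k) ∨ (x ∉ Tr ∧ j ≤ k))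
  | .inr (false, j, x), .inr (false, l, y) => j = l ∧ G x y
  | .inr (true, j, x), .inr (true, l, y) => j = l ∧ G y x
  | .inr (false, _, _), .inr (true, _, _) => False
  | .inr (true, _, _), .inr (false, _, _) => False

variable {n : ℕ}

theorem arc_main (i k : Fin n) : Arc n (.inl i) (.inl k) ↔ i < k := Iff.rfl
theorem arc_to_fwd (i j : Fin n) (x : Fin 12) : Arc n (.inl i) (.inr (false, j, x)) ↔
    j.val + 12 ≤ n ∧ ((x ∈ Tr ∧ i < j) ∨ (x ∉ Tr ∧ i ≤ j)) := Iff.rfl
theorem arc_to_rev (i j : Fin n) (x : Fin 12) : Arc n (.inl i) (.inr (true, j, x)) ↔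
    11 ≤ j.val ∧ x ∈ Ex ∧ i.val + 10 ≤ j.val := Iff.rfl
theorem arc_of_fwd (j k : Fin n) (x : Fin 12) : Arc n (.inr (false, j, x)) (.inl k) ↔
    j.val + 12 ≤ n ∧ ((x ∈ Ex ∧ j.val + 10 ≤ k.val) ∨ j.val + 12 ≤ k.val) := Iff.rfl
theorem arc_of_rev (j k : Fin n) (x : Fin 12) : Arc n (.inr (true, j, x)) (.inl k) ↔
    11 ≤ j.val ∧ ((x ∈ Tr ∧ j < k) ∨ (x ∉ Tr ∧ j ≤ k)) := Iff.rfl
theorem arc_fwd (j l : Fin n) (x y : Fin 12) :
    Arc n (.inr (false, j, x)) (.inr (false, l, y)) ↔ j = l ∧ G x y := Iff.rfl
theorem arc_rev (j l : Fin n) (x y : Fin 12) :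
    Arc n (.inr (true, j, x)) (.inr (true, l, y)) ↔ j = l ∧ G y x := Iff.rfl

theorem arc_inr (b c : Bool) (j l : Fin n) (x y : Fin 12)
    (h : Arc n (.inr (b, j, x)) (.inr (c, l, y))) : b = c ∧ j = l := by
  cases b <;> cases c
  · exact ⟨rfl, h.1⟩
  · exact h.elim
  · exact h.elim
  · exact ⟨rfl, h.1⟩

/-- The digraph `D_n`. -/
def D (n : ℕ) : Digraph (W n) := ⟨Arc n⟩

theorem not_arc_self (v : W n) : ¬ Arc n v v := by
  have hG : ∀ x : Fin 12, ¬ G x x := by decide
  rcases v with i | ⟨b, j, x⟩
  · exact lt_irrefl i
  · cases b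
    · exact fun h => hG x h.2
    · exact fun h => hG x h.2

theorem arc_asymm (v w : W n) (h : Arc n v w) : ¬ Arc n w v := by
  have hG : ∀ x y : Fin 12, G x y → ¬ G y x := by decide
  intro h'
  rcases v with i | ⟨b, j, x⟩ <;> rcases w with k | ⟨c, l, y⟩
  · rw [arc_main, Fin.lt_def] at h h'
    omega
  · cases c
    · rw [arc_to_fwd, Fin.lt_def, Fin.le_def] at h
      rw [arc_of_fwd] at h'
      omega
    · rw [arc_to_rev] at h
      rw [arc_of_rev, Fin.lt_def, Fin.le_def] at h'
      omega
  · cases b
    · rw [arc_to_fwd, Fin.lt_def, Fin.le_def] at h'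
      rw [arc_of_fwd] at h
      omega
    · rw [arc_to_rev] at h'
      rw [arc_of_rev, Fin.lt_def, Fin.le_def] at h
      omega
  · cases b <;> cases c
    · exact hG _ _ h.2 h'.2
    · exact h.elim
    · exact h.elim
    · exact hG _ _ h.2 h'.2

/-- A directed path, as a list. -/
def IsPath (L : List (W n)) : Prop := L.IsChain (Arc n) ∧ L.Nodup

theorem IsPath.tail {v : W n} {L : List (W n)} (h : IsPath (v :: L)) : IsPath L :=
  ⟨h.1.tail, (List.nodup_cons.1 h.2).2⟩

theorem IsPath.right {L M : List (W n)} (h : IsPath (L ++ M)) : IsPath M :=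
  ⟨(List.isChain_append.1 h.1).2.1, (List.nodup_append.1 h.2).2.1⟩

/-- A path that starts in a gadget is a path of the gadget followed by a path that starts at a
main vertex. -/
theorem run (b : Bool) (j : Fin n) : ∀ (L : List (W n)) (x : Fin 12),
    (Sum.inr (b, j, x) :: L).IsChain (Arc n) →
    ∃ (R : List (Fin 12)) (L' : List (W n)), L = R.map (fun y => Sum.inr (b, j, y)) ++ L' ∧
      ∀ v ∈ L'.head?, ∃ k, v = Sum.inl k := by
  intro L
  induction L with
  | nil => intro x _; exact ⟨[], [], rfl, by simp⟩
  | cons w L ih =>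
    intro x h
    rcases w with k | ⟨c, l, y⟩
    · exact ⟨[], Sum.inl k :: L, rfl, by simp⟩
    · rw [List.isChain_cons_cons] at h
      obtain ⟨rfl, rfl⟩ := arc_inr _ _ _ _ _ _ h.1
      obtain ⟨R, L', rfl, h2⟩ := ih y h.2
      exact ⟨y :: R, L', rfl, h2⟩

/-- Paths inside a gadget. -/
theorem run_facts (b : Bool) (j : Fin n) (x : Fin 12) (R : List (Fin 12)) (L' : List (W n))
    (h : IsPath ((x :: R).map (fun y => (Sum.inr (b, j, y) : W n)) ++ L')) :
    R.length ≤ 10 ∧ (x :: R).Nodup ∧ (b = false → (x :: R).IsChain G) ∧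
      (b = true → (x :: R).reverse.IsChain G) := by
  have hinj : Function.Injective (fun y : Fin 12 => (Sum.inr (b, j, y) : W n)) := by
    intro y z hyz; simpa using hyz
  obtain ⟨h1, h2⟩ := h
  have h3 := (List.isChain_append.1 h1).1
  have h4 := (List.nodup_append.1 h2).1
  rw [List.isChain_map] at h3
  rw [List.nodup_map_iff hinj] at h4
  have h5 : b = false → (x :: R).IsChain G := by
    rintro rfl
    exact h3.imp (fun _ _ h => h.2)
  have h6 : b = true → (x :: R).reverse.IsChain G := by
    rintro rfl
    rw [List.isChain_reverse]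
    exact h3.imp (fun _ _ h => h.2)
  refine ⟨?_, h4, h5, h6⟩
  cases b
  · have := length_le_11 _ (h5 rfl) h4
    simp only [List.length_cons] at this
    omega
  · have := length_le_11 _ (h6 rfl) (List.nodup_reverse.2 h4)
    simp only [List.length_reverse, List.length_cons] at this
    omega

/-- Upper bound for the number of vertices of a path that starts at `v`. -/
def cap (n : ℕ) : W n → ℕ
  | .inl i => n - i.val
  | .inr (false, j, x) =>
      if j.val + 12 ≤ n then (if x ∈ Tr then n - j.val else n - j.val - 1) else n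
  | .inr (true, j, x) => if 11 ≤ j.val ∧ x ∈ Ex then n + 9 - j.val else n

theorem cap_of_arc (i : Fin n) (w : W n) (h : Arc n (.inl i) w) : cap n w + 1 ≤ n - i.val := by
  have hi := i.isLt
  rcases w with k | ⟨b, j, x⟩
  · have h1 : i.val < k.val := h
    simp only [cap]; omega
  · have hj := j.isLt
    cases b
    · rw [arc_to_fwd, Fin.lt_def, Fin.le_def] at h
      obtain ⟨h1, ⟨h2, h3⟩ | ⟨h2, h3⟩⟩ := h
      · simp only [cap, h1, h2, if_true]; omega
      · simp only [cap, h1, h2, if_true, if_false]; omega
    · rw [arc_to_rev] at h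
      obtain ⟨h1, h2, h3⟩ := h
      simp only [cap, h1, h2, and_self, if_true]; omega

theorem bound (hn : 22 ≤ n) : ∀ (m : ℕ) (v : W n) (L : List (W n)), L.length ≤ m →
    IsPath (v :: L) → L.length + 1 ≤ cap n v := by
  intro m
  induction m with
  | zero =>
    intro v L hL _
    rcases v with i | ⟨b, j, x⟩
    · have := i.isLt
      simp only [cap]; omega
    · have := j.isLt
      cases b
      · simp only [cap]; split_ifs <;> omega
      · simp only [cap]; split_ifs <;> omega
  | succ m ih =>
    intro v L hL hP
    rcases v with i | ⟨b, j, x⟩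
    · cases L with
      | nil =>
        have := i.isLt
        simp only [cap, List.length_nil]; omega
      | cons w L2 =>
        have h1 := ih w L2 (by simpa using hL) hP.tail
        have h2 := hP.1
        rw [List.isChain_cons_cons] at h2
        have h3 := cap_of_arc i w h2.1
        simp only [cap, List.length_cons]; omega
    · obtain ⟨R, L', rfl, hL'⟩ := run b j L x hP.1
      have hP' : IsPath ((x :: R).map (fun y => (Sum.inr (b, j, y) : W n)) ++ L') := hP
      obtain ⟨hR, hnd, hf, hr⟩ := run_facts b j x R L' hP'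
      have hj := j.isLt
      -- the last vertex of the run
      obtain ⟨z, hz⟩ : ∃ z, (x :: R).getLast? = some z :=
        ⟨_, List.getLast?_eq_getLast_of_ne_nil (List.cons_ne_nil x R)⟩
      have hback : ∃ Q, (x :: R).reverse = z :: Q ∧ Q.length = R.length := by
        obtain ⟨Q, hQ⟩ := List.getLast?_eq_some_iff.1 hz
        refine ⟨Q.reverse, by rw [hQ]; simp, ?_⟩
        have := congrArg List.length hQ
        simp only [List.length_cons, List.length_append, List.length_nil] at this
        simp only [List.length_reverse]; omega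
      -- bounds for the run if it is an exit path
      have hfwd : b = false → z ∈ Ex → R.length ≤ 9 ∧ (x ∉ Tr → R.length ≤ 8) := by
        intro hb hzE
        have hE : ExitPath (x :: R) := ⟨hf hb, hnd, z, hz, hzE⟩
        refine ⟨by have := hE.length_le; simp only [List.length_cons] at this; omega, ?_⟩
        intro hx
        by_contra hlt
        exact hx (hE.head_mem (by omega))
      have hrev : b = true → x ∈ Ex → R.length ≤ 9 ∧ (z ∉ Tr → R.length ≤ 8) := by
        intro hb hxE
        obtain ⟨Q, hQ, hQl⟩ := hback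
        have hE : ExitPath (z :: Q) := by
          rw [← hQ]
          refine ⟨hr hb, List.nodup_reverse.2 hnd, x, ?_, hxE⟩
          rw [List.getLast?_reverse]; rfl
        refine ⟨by have := hE.length_le; simp only [List.length_cons] at this; omega, ?_⟩
        intro hx
        by_contra hlt
        exact hx (hE.head_mem (by omega))
      rw [List.length_append, List.length_map] at hL ⊢
      cases L' with
      | nil =>
        simp only [List.length_nil, Nat.add_zero]
        cases b
        · simp only [cap]; split_ifs <;> omega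
        · simp only [cap]
          split_ifs with h
          · have := (hrev rfl h.2).1
            omega
          · omega
      | cons w L'' =>
        obtain ⟨k, rfl⟩ := hL' w (by simp)
        have hk := k.isLt
        have h1 := ih (Sum.inl k) L'' (by simp only [List.length_cons] at hL; omega)
          (IsPath.right hP')
        simp only [cap] at h1
        have harc : Arc n (Sum.inr (b, j, z)) (Sum.inl k) := by
          have h2 := (List.isChain_append.1 hP'.1).2.2
          refine h2 _ ?_ _ (by simp)
          rw [List.getLast?_map, hz]; rfl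
        simp only [List.length_cons]
        cases b
        · rw [arc_of_fwd] at harc
          obtain ⟨h3, h4⟩ := harc
          simp only [cap, h3, if_true]
          rcases h4 with ⟨h4, h5⟩ | h5
          · obtain ⟨h6, h7⟩ := hfwd rfl h4
            split_ifs with hx
            · omega
            · have := h7 hx
              omega
          · split_ifs <;> omega
        · rw [arc_of_rev, Fin.lt_def, Fin.le_def] at harc
          obtain ⟨h3, h4⟩ := harc
          simp only [cap]
          split_ifs with hx
          · obtain ⟨h6, h7⟩ := hrev rfl hx.2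
            rcases h4 with ⟨h4, h5⟩ | ⟨h4, h5⟩
            · omega
            · have := h7 h4
              omega
          · rcases h4 with ⟨h4, h5⟩ | ⟨h4, h5⟩ <;> omega

theorem cap_le (v : W n) : cap n v ≤ n := by
  rcases v with i | ⟨b, j, x⟩
  · simp only [cap]; omega
  · cases b
    · simp only [cap]; split_ifs <;> omega
    · simp only [cap]; split_ifs with h <;> omega

/-- Every path of `D_n` has at most `n` vertices. -/
theorem length_le (hn : 22 ≤ n) (L : List (W n)) (hL : IsPath L) : L.length ≤ n := by
  cases L with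
  | nil => simp
  | cons v L =>
    have h1 := bound hn _ v L le_rfl hL
    have h2 := cap_le v
    simp only [List.length_cons]; omega

end Pool.Agent.PathPartitionEq.Weak
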